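import Mathlib
import Pool.Agent.X332.LC.FinIm

set_option autoImplicit false

/-!
# Lang's equivalence for finite images of systems of high powers, and for their covers

Let `K` be a number field, `σ` an embedding of `K` in `ℂ`, and let `Z ⊆ X ⊆ P^M` be given by the
forms in the ideals `I` (for `X`) and `I'` (for `Z`) over `K`; for `I' = ⊤` the set `Z` is empty.

(1) Suppose that `X_σ` is the image of ANY finite morphism, with at most `r` points in the fibres,
from a projective variety `{F = 0} ⊆ P^n` over `ℂ`, where all `F_e` are sums of at most `s` powers of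
linear forms with exponents `≥ N`, or all `F_e` have at most `s` monomials and exponents divisible by
numbers `≥ N`, and `N ≥ n 4·10^s (r+1)^7`; no condition on the dimension, on the number of equations
or on singularities, and `X` is given by arbitrary equations. Then the following are equivalent: all
nonconstant entire curves in `X_σ` lie in `Z_σ`; all rational curves in `X_σ` lie in `Z_σ`; and each
of the arithmetic conditions `SumHeight`, `SumFinite`, `NearFinite`, `SmallUniform`,
`RootsUniform`, `RootsFinite` on the algebraic points of `X` outside of `Z` (see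
`Pool/Agent/X332/FR/Def.lean`; they do not depend on `σ`). If `X(L) \ Z` is finite for all finite
extensions `L` of `K`, or if `X_τ` is hyperbolic modulo `Z_τ` for some embedding `τ`, then `X_σ` is
hyperbolic modulo `Z_σ`.

(2) Let more generally `Y = {Ψ = 0}` be a projective variety over `ℂ` with a morphism `B` to
`{F = 0}` (for instance a cover of it, with any branching) and a finite morphism `G` from `Y` onto
`{Φ = 0} ⊆ P^M`, with at most `r` points in the fibres. Let `X_σ` be ANY closed subvariety of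
`{Φ = 0}`, and suppose that `Z_σ` contains the points of `X_σ` in the image under `G` of the inverse
image under `B` of the closure of the union of the images of `ℂˣ` in `{F = 0}`. Then `X_σ` is
hyperbolic modulo `Z_σ`, and the arithmetic conditions hold, as predicted by Lang's conjecture.
-/

namespace Pool.Agent.Results.MP_f82ddf_nt.FiniteImagesLang

open MvPolynomial Pool.Agent.Y719.SU Pool.Agent.X332.FR Pool.Agent.X332.LC
open Pool.Agent.W602.GT (Cone IsForm SpGm HighPowers)
open Pool.Agent.Y221.FQ (Mor Onto FibresLe im)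

theorem result {K : Type} [Field K] [NumberField K] {M n : ℕ} (σ : K →+* ℂ)
    (I I' : Ideal (MvPolynomial (Fin (M + 1)) K)) {ι : Type}
    {F : ι → MvPolynomial (Fin (n + 1)) ℂ} {r s N : ℕ} (hF : HighPowers s N F) (hn : 1 ≤ n)
    (hN : n * (4 * 10 ^ s * (r + 1) ^ 7) ≤ N) :
    (∀ G : Fin (M + 1) → MvPolynomial (Fin (n + 1)) ℂ,
      Mor F (formsC σ I) G → Onto F (formsC σ I) G → FibresLe F G r →
      [Hyperbolic σ I I', NoRat σ I I', SumHeight I I', SumFinite I I', NearFinite I I',
        SmallUniform I I', RootsUniform I I', RootsFinite I I'].TFAE ∧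
      (Finiteness I I' → Hyperbolic σ I I') ∧
      (∀ τ : K →+* ℂ, Hyperbolic τ I I' → Hyperbolic σ I I')) ∧
    (∀ (m : ℕ) (κ μ : Type) (Ψ : κ → MvPolynomial (Fin (m + 1)) ℂ)
      (Φ : μ → MvPolynomial (Fin (M + 1)) ℂ) (B : Fin (n + 1) → MvPolynomial (Fin (m + 1)) ℂ)
      (G : Fin (M + 1) → MvPolynomial (Fin (m + 1)) ℂ),
      (∀ e, IsForm (Ψ e)) → Mor Ψ F B → Mor Ψ Φ G → Onto Ψ Φ G → FibresLe Ψ G r →
      Cone (formsC σ I) ⊆ Cone Φ →
      (∀ x ∈ Cone Ψ, im B x ∈ SpGm F → im G x ∈ Cone (formsC σ I) → OnI σ I' (im G x)) →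
      Hyperbolic σ I I' ∧ SumHeight I I' ∧ SumFinite I I' ∧ NearFinite I I' ∧
        SmallUniform I I' ∧ RootsUniform I I') := by
  have hfr := main_fr σ I I'
  have h12 : Hyperbolic σ I I' → NoRat σ I I' := noRat_of_hyp σ
  have e23 : NoRat σ I I' ↔ SumHeight I I' := hfr.out 0 1
  have e24 : NoRat σ I I' ↔ SumFinite I I' := hfr.out 0 2
  have e25 : NoRat σ I I' ↔ NearFinite I I' := hfr.out 0 3
  have e26 : NoRat σ I I' ↔ SmallUniform I I' := hfr.out 0 4
  have e27 : NoRat σ I I' ↔ RootsUniform I I' := hfr.out 0 5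
  have e28 : NoRat σ I I' ↔ RootsFinite I I' := hfr.out 0 6
  refine ⟨fun G hG hon hfib => ?_, fun m κ μ Ψ Φ B G hΨ hB hG hon hfib hX hZ => ?_⟩
  · have h21 : NoRat σ I I' → Hyperbolic σ I I' := hyp_of_noRat_im hG hon hfib hF hn hN
    refine ⟨?_, fun hfin => ?_, fun τ hτ => ?_⟩
    · tfae_have 1 → 2 := h12
      tfae_have 2 → 1 := h21
      tfae_have 2 ↔ 3 := e23
      tfae_have 2 ↔ 4 := e24
      tfae_have 2 ↔ 5 := e25
      tfae_have 2 ↔ 6 := e26
      tfae_have 2 ↔ 7 := e27
      tfae_have 2 ↔ 8 := e28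
      tfae_finish
    · obtain ⟨hm1, -, h2⟩ := Pool.Agent.Y719.SU.main σ I I'
      have e3 : NoRat σ I I' ↔ HtBound I I' := hm1.out 0 3
      exact h21 (e3.2 (h2 hfin))
    · have eτ : NoRat τ I I' ↔ SumHeight I I' := (main_fr τ I I').out 0 1
      exact h21 (e23.2 (eτ.1 (noRat_of_hyp τ hτ)))
  · have h1 : Hyperbolic σ I I' := hyp_cover_im hΨ hB hG hon hfib hF hn hN hX hZ
    have h2 := h12 h1
    exact ⟨h1, e23.1 h2, e24.1 h2, e25.1 h2, e26.1 h2, e27.1 h2⟩

end Pool.Agent.Results.MP_f82ddf_nt.FiniteImagesLang
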