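import Mathlib
import Pool.Agent.X332.FR.Main

set_option autoImplicit false

/-!
# Lang's equivalence for sums of elements of groups of finite rank and for multipliers of small height

Let `X` and `Z` be the projective varieties over a number field `K`, embedded in `ℂ` by `σ`, given by
the forms in the ideals `I` and `I'` of `K[x_0, …, x_N]` (for `I' = ⊤` the variety `Z` is empty).
Let `ℚ̄` be the field of algebraic numbers, `h` the absolute logarithmic Weil height. The division
group of a group `Γ` of nonzero algebraic numbers consists of the `u` with a power in `Γ`.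

The following are equivalent:

* (`NoRat`) there is no nonconstant map from the projective line over `ℂ` to `X_σ` with image not
  contained in `Z_σ`;
* (`SumHeight`) for all finitely generated `Γ` and all `r` there is `C` with `h(x) ≤ C (1 + h(V))`
  for all points `x = u_1 V_1 + … + u_r V_r` of `(X ∖ Z)(ℚ̄)` with `u_j` in the division group of `Γ`
  and vectors `V_j` of algebraic numbers;
* (`SumFinite`) for all finite extensions `L` of `K`, all finitely generated `Γ`, all `r` and `B` only
  finitely many points of `(X ∖ Z)(L)` are of the form `u_1 V_1 + … + u_r V_r` with `u_j` in the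
  division group of `Γ` and vectors `V_j` of algebraic numbers with `h(V) ≤ B`;
* (`NearFinite`) for all `r` there is `ε > 0` such that for all finitely generated `Γ` and all `V` the
  set of the points `s_1 u_1 V_1 + … + s_r u_r V_r` of `(X ∖ Z)(ℚ̄)`, with `u_j` in the division group
  and algebraic `s_j`, `h(s_1 : … : s_r) < ε`, is finite, and its number of elements is at most
  `A (1 + h(V)) ^ m` with `A` and `m` independent of `V`;
* (`SmallUniform`) for all `r` there are `ε > 0` and `M` such that for ALL fields `L ⊇ K` with an
  embedding of `ℚ̄` and ALL vectors `v_j` over `L` at most `M` points of `(X ∖ Z)(L)` are of the form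
  `t_1 v_1 + … + t_r v_r` with algebraic `t_j`, `h(t_1 : … : t_r) < ε`;
* (`RootsUniform`) for all `r` there is `M` such that for ALL fields `L ⊇ K` and ALL vectors `v_j`
  over `L` at most `M` points of `(X ∖ Z)(L)` are of the form `ζ_1 v_1 + … + ζ_r v_r` with roots of
  unity `ζ_j`;
* (`RootsFinite`) for all `r` and all vectors `V_j` of algebraic numbers only finitely many points of
  `(X ∖ Z)(ℚ̄)` are of the form `ζ_1 V_1 + … + ζ_r V_r` with roots of unity `ζ_j`.

Both sides of Lang's conjecture, for `Z` instead of the empty set, imply these conditions: if all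
nonconstant entire curves in `X_σ` lie in `Z_σ` for one `σ`, or if `(X ∖ Z)(L)` is finite for all
finite extensions `L` of `K`, then all the conditions hold.
-/

namespace Pool.Agent.Results.MP_f82ddf_nt.FiniteRankLang

open MvPolynomial Pool.Agent.Y719.SU Pool.Agent.X332.FR

theorem result {K : Type} [Field K] [NumberField K] (σ : K →+* ℂ) {N : ℕ}
    (I I' : Ideal (MvPolynomial (Fin (N + 1)) K)) :
    [NoRat σ I I', SumHeight I I', SumFinite I I', NearFinite I I', SmallUniform I I',
      RootsUniform I I', RootsFinite I I'].TFAE ∧
    (Hyperbolic σ I I' → NoRat σ I I') ∧ (Finiteness I I' → NoRat σ I I') := by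
  obtain ⟨hm, h1, h2⟩ := Pool.Agent.Y719.SU.main σ I I'
  have e3 : NoRat σ I I' ↔ HtBound I I' := hm.out 0 3
  exact ⟨main_fr σ I I', fun h => e3.2 (h1 h), fun h => e3.2 (h2 h)⟩

end Pool.Agent.Results.MP_f82ddf_nt.FiniteRankLang
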