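import Mathlib
import Pool.Agent.X332.LC.LinDeg

set_option autoImplicit false

/-!
# Lang's equivalence for subvarieties of complete intersections of linear degree

Let `K` be a number field and let `a_ji ∈ K`, `j = 1, …, c`, `i = 1, …, d_j`, be distinct. The complete
intersection `Y` of dimension `n` in `P^(c+n)` is given by the equations

  `w_j ^ (d_j) = H (a_j1) ⋯ H (a_jd_j)`, `j = 1, …, c`,

where the homogeneous coordinates are `w_1, …, w_c` and the coefficients of the polynomial `H` of
degree at most `n`. Suppose that `d_j ≥ δ` for all `j`, where `n (c + 2) < c δ` and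
`3 (n + 1) < δ + 3 c` (`Data`); for instance `c = n` and `δ = n + 3`. Let `X` be ANY closed subvariety
of `Y` over `K`, given by the forms in an ideal `I`, and let `σ` be an embedding of `K` in `ℂ`.

(1) If `n ≤ c + 1`, the following are equivalent: `X_σ` is hyperbolic (all entire curves are
constant); `X_σ` contains no rational curve; `X_σ` contains no line; and each of the arithmetic
conditions `SumHeight`, `SumFinite`, `NearFinite`, `SmallUniform`, `RootsUniform`, `RootsFinite` on
the algebraic points of `X` which are sums of a bounded number of multiples of vectors, with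
multipliers in or near groups of finite rank (see `Pool/Agent/X332/FR/Def.lean`; they do not depend
on `σ`). If `X(L)` is finite for all finite extensions `L` of `K`, then all these conditions hold: so
`X_σ` is then hyperbolic for all `σ`, which is one of the implications of Lang's conjecture.

(2) If `n ≤ c`, then all this is true: `X_σ` is hyperbolic for all `σ`, and the arithmetic conditions
hold, as predicted by Lang's conjecture. For instance for all `r`, all finitely generated groups `Γ`
of algebraic numbers, all finite extensions `L` of `K` and all `B` only finitely many points of `X(L)`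
are of the form `u_1 V_1 + … + u_r V_r` with `u_j` in the division group of `Γ` and vectors `V_j` of
algebraic numbers with `h(V) ≤ B`; and for each `r` there are `ε > 0` and `M` such that for all fields
`L ⊇ K` containing the algebraic numbers and all vectors `v_j` over `L` at most `M` points of `X(L)`
are of the form `t_1 v_1 + … + t_r v_r` with algebraic `t_j`, `h(t_1 : … : t_r) < ε`.
-/

namespace Pool.Agent.Results.MP_f82ddf_nt.LinearDegreeLang

open MvPolynomial Pool.Agent.Y719.SU Pool.Agent.X332.FR Pool.Agent.X332.LC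

theorem result {K : Type} [Field K] [NumberField K] {n c δ : ℕ} {d : Fin c → ℕ}
    {a : (j : Fin c) → Fin (d j) → K} (h : Pool.Agent.Y190.CI.Data n c δ d a)
    (I : Ideal (MvPolynomial (Fin (c + n + 1)) K)) (hI : InCI n a I) (σ : K →+* ℂ) :
    (n ≤ c + 1 →
      [Hyperbolic σ I ⊤, NoRat σ I ⊤, LinesIn σ I ⊤, SumHeight I ⊤, SumFinite I ⊤,
        NearFinite I ⊤, SmallUniform I ⊤, RootsUniform I ⊤, RootsFinite I ⊤].TFAE ∧
      (Finiteness I ⊤ → Hyperbolic σ I ⊤)) ∧
    (n ≤ c → Hyperbolic σ I ⊤ ∧ SumHeight I ⊤ ∧ SumFinite I ⊤ ∧ NearFinite I ⊤ ∧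
      SmallUniform I ⊤ ∧ RootsUniform I ⊤) := by
  have hfr := main_fr σ I ⊤
  have h12 : Hyperbolic σ I ⊤ → NoRat σ I ⊤ := noRat_of_hyp σ
  have h23 : NoRat σ I ⊤ → LinesIn σ I ⊤ := linesIn_of_noRat
  have e24 : NoRat σ I ⊤ ↔ SumHeight I ⊤ := hfr.out 0 1
  have e25 : NoRat σ I ⊤ ↔ SumFinite I ⊤ := hfr.out 0 2
  have e26 : NoRat σ I ⊤ ↔ NearFinite I ⊤ := hfr.out 0 3
  have e27 : NoRat σ I ⊤ ↔ SmallUniform I ⊤ := hfr.out 0 4
  have e28 : NoRat σ I ⊤ ↔ RootsUniform I ⊤ := hfr.out 0 5
  have e29 : NoRat σ I ⊤ ↔ RootsFinite I ⊤ := hfr.out 0 6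
  refine ⟨fun hnc => ?_, fun hnc => ?_⟩
  · have h31 : LinesIn σ I ⊤ → Hyperbolic σ I ⊤ := hyp_of_lines_ci h hI hnc σ
    constructor
    · tfae_have 1 → 2 := h12
      tfae_have 2 → 3 := h23
      tfae_have 3 → 1 := h31
      tfae_have 2 ↔ 4 := e24
      tfae_have 2 ↔ 5 := e25
      tfae_have 2 ↔ 6 := e26
      tfae_have 2 ↔ 7 := e27
      tfae_have 2 ↔ 8 := e28
      tfae_have 2 ↔ 9 := e29
      tfae_finish
    · intro hF
      obtain ⟨hm1, -, h2⟩ := Pool.Agent.Y719.SU.main σ I ⊤
      have e3 : NoRat σ I ⊤ ↔ HtBound I ⊤ := hm1.out 0 3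
      exact h31 (h23 (e3.2 (h2 hF)))
  · have h1 := hyp_ci_low h hI hnc σ
    have h2 := h12 h1
    exact ⟨h1, e24.1 h2, e25.1 h2, e26.1 h2, e27.1 h2, e28.1 h2⟩

end Pool.Agent.Results.MP_f82ddf_nt.LinearDegreeLang
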