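import Mathlib
import Pool.Agent.X332.LC.Buchi

set_option autoImplicit false

/-!
# Lang's equivalence for subvarieties of Büchi's varieties

Let `K` be a number field, `m ≥ 2`, `n < 2 m`, and let `a_0, …, a_N` be distinct elements of `K`, where
`N + 1 > 4 n`. Büchi's variety `B` consists of the points `(x_0 : … : x_N)` such that
`x_i ^ m = H (a_i)` for all `i`, for some polynomial `H` of degree at most `n`; it has dimension `n`
and it is given by the diagonal equations `∑ l_i x_i ^ m = 0` for the linear relations `l` between
the values at the `a_i` of the polynomials of degree at most `n`. (For `m = 2`, `n = 2` these are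
Büchi's surfaces of sequences of squares with constant second difference.) The exponent `m` is small:
it only has to be larger than half of the dimension.

Let `X` be ANY closed subvariety of `B`, given by the forms in an ideal `I` over `K` (of any
dimension and with any singularities), let `Z` be given by the forms in an ideal `I'` (`I' = ⊤` for
`Z = ∅`), and let `σ` be an embedding of `K` in `ℂ`.

(1) The following are equivalent: all nonconstant entire curves in `X_σ` lie in `Z_σ` (for `Z = ∅`:
`X_σ` is hyperbolic); all nonconstant rational curves in `X_σ` lie in `Z_σ`; all lines in `X_σ` lie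
in `Z_σ`; and each of the arithmetic conditions `SumHeight`, `SumFinite`, `NearFinite`,
`SmallUniform`, `RootsUniform`, `RootsFinite` on the algebraic points of `X` outside of `Z` which are
sums of a bounded number of multiples of vectors, with multipliers in or near groups of finite rank
(see `Pool/Agent/X332/FR/Def.lean`). The arithmetic conditions do not depend on `σ`.

(2) If `(X ∖ Z)(L)` is finite for all finite extensions `L` of `K`, then all these conditions hold. In
particular, if `X(L)` is finite for all finite extensions `L` of `K`, then `X_σ` is hyperbolic for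
all `σ`: this is one of the two implications of Lang's conjecture for all closed subvarieties of
these varieties.
-/

namespace Pool.Agent.Results.MP_f82ddf_nt.PolynomialValueLang

open MvPolynomial Pool.Agent.Y719.SU Pool.Agent.X332.FR Pool.Agent.X332.LC

theorem result {K : Type} [Field K] [NumberField K] {N n m : ℕ} (hm : 2 ≤ m) (hnm : n < 2 * m)
    (hN : 4 * n < N + 1) (a : Fin (N + 1) → K) (ha : Function.Injective a)
    (I : Ideal (MvPolynomial (Fin (N + 1)) K)) (hI : InPowers n m a I) (σ : K →+* ℂ)
    (I' : Ideal (MvPolynomial (Fin (N + 1)) K)) :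
    [Hyperbolic σ I I', NoRat σ I I', LinesIn σ I I', SumHeight I I', SumFinite I I',
      NearFinite I I', SmallUniform I I', RootsUniform I I', RootsFinite I I'].TFAE ∧
    (Finiteness I I' → Hyperbolic σ I I') := by
  have hfr := main_fr σ I I'
  have h12 : Hyperbolic σ I I' → NoRat σ I I' := noRat_of_hyp σ
  have h23 : NoRat σ I I' → LinesIn σ I I' := linesIn_of_noRat
  have h31 : LinesIn σ I I' → Hyperbolic σ I I' := hyp_of_lines_powers hm hnm hN ha hI σ I'
  have e24 : NoRat σ I I' ↔ SumHeight I I' := hfr.out 0 1
  have e25 : NoRat σ I I' ↔ SumFinite I I' := hfr.out 0 2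
  have e26 : NoRat σ I I' ↔ NearFinite I I' := hfr.out 0 3
  have e27 : NoRat σ I I' ↔ SmallUniform I I' := hfr.out 0 4
  have e28 : NoRat σ I I' ↔ RootsUniform I I' := hfr.out 0 5
  have e29 : NoRat σ I I' ↔ RootsFinite I I' := hfr.out 0 6
  constructor
  · tfae_have 1 → 2 := h12
    tfae_have 2 → 3 := h23
    tfae_have 3 → 1 := h31
    tfae_have 2 ↔ 4 := e24
    tfae_have 2 ↔ 5 := e25
    tfae_have 2 ↔ 6 := e26
    tfae_have 2 ↔ 7 := e27
    tfae_have 2 ↔ 8 := e28
    tfae_have 2 ↔ 9 := e29
    tfae_finish
  · intro hF
    obtain ⟨hm1, -, h2⟩ := Pool.Agent.Y719.SU.main σ I I'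
    have e3 : NoRat σ I I' ↔ HtBound I I' := hm1.out 0 3
    exact h31 (h23 (e3.2 (h2 hF)))

end Pool.Agent.Results.MP_f82ddf_nt.PolynomialValueLang
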